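import Pool.Agent.W2helper81.IT.Tr
import Pool.Agent.W2helper81.IT.Form
import Pool.Agent.W2helper17.IW.HOM
import Pool.Agent.W2helper92.IW.FD
import Pool.Agent.W2helper71.IW.RAM
import Pool.Agent.W2helper85.IW.STEP
import Pool.Agent.W2helper15.IW.SHA

/-!
# `μ = 0` for all `T` with residual constituents of bounded dimension and `μ = 0` for fields of bounded degree

Let `p` be odd. As explained in `FieldsOfLinearForms.lean`, the question for `T`, with the field called `L` there as
our `K`, is (Nakayama, Poitou and Tate; classical, not formalised): is the number of the everywhere unramified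
cocycles of `G_{K_n}` with values in `W = Hom(T / πT, μ_p)` bounded in the cyclotomic `ℤ_p`-extension of `K`? This is
`QOne ρ`, where `ρ` is the action of `G_K` on `W`. The dimension over `𝔽_p` of `W` is the rank of `T` over `ℤ_p`
if `𝓡` is unramified over `ℤ_p`, and the constituents of `W` correspond to those of `T / πT`.

Let `K` be a number field and `d` a natural number. The theorem compares the statement

`Q(d)`: the question has a positive answer for all `W`, of any dimension, whose simple constituents have dimension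
at most `d` over `𝔽_p`,

with Iwasawa's conjecture for the class groups of finite extensions `E` of `K`:

* if `μ = 0` for all `E` whose degree over `K` is prime to `p` and less than `p ^ d`, then `Q(d)` holds;
* if `Q(d)` holds, then `μ = 0` for all `E` of degree at most `d` over `K`.

The `W` used in the second part are the permutation modules `𝔽_p[G_K / G_E]`, which come from
`T = ℤ_p[G_K / G_E](1)`. In particular the question for all `T` over `K` is equivalent to Iwasawa's conjecture
for all finite extensions of `K`, without passing to normal closures.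
-/

set_option autoImplicit false

namespace Pool.Agent.Results.MP_519cc8_nt.DimensionAgainstDegree

open IntermediateField Module Pool.Agent.Q60.MU Pool.Agent.W2helper81.IT

/-- **`Q(d)` follows from `μ = 0` in the degrees less than `p ^ d` which are prime to `p`, and it implies `μ = 0` in the
degrees up to `d`.** -/
theorem result (p : ℕ) (hp : p.Prime) (hp2 : p ≠ 2) (K : IntermediateField ℚ Qb) (hK : FiniteDimensional ℚ K)
    (d : ℕ) :
    ((∀ E : IntermediateField ℚ Qb, FiniteDimensional ℚ E → K ≤ E →
        ∀ e : ℕ, finrank ℚ E = e * finrank ℚ K → ¬ p ∣ e → e < p ^ d → MuZero p E) →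
      ∀ (W : Type) [AddCommGroup W] [Module (ZMod p) W] [Finite W]
        (ρ : Representation (ZMod p) (G K) W), IsCont ρ →
        (∀ U U' : Submodule (ZMod p) W, IsStep ρ U U' → finrank (ZMod p) U' ≤ finrank (ZMod p) U + d) →
        QOne ρ) ∧
    ((∀ (W : Type) [AddCommGroup W] [Module (ZMod p) W] [Finite W]
        (ρ : Representation (ZMod p) (G K) W), IsCont ρ →
        (∀ U U' : Submodule (ZMod p) W, IsStep ρ U U' → finrank (ZMod p) U' ≤ finrank (ZMod p) U + d) →
        QOne ρ) →
      ∀ E : IntermediateField ℚ Qb, FiniteDimensional ℚ E → K ≤ E →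
        finrank ℚ E ≤ d * finrank ℚ K → MuZero p E) := by
  have hpf : Fact p.Prime := ⟨hp⟩
  have hH : Pool.Agent.W2helper81.IW.P_HOM := Pool.Agent.W2helper17.IW.HOM_ok
  have hmain := Pool.Agent.W2helper81.IW.main_ok hH Pool.Agent.W2helper92.IW.FD_ok
    Pool.Agent.W2helper71.IW.RAM_ok Pool.Agent.W2helper81.IW.STEP_ok
  refine ⟨fun hq W _ _ _ ρ hρ hdim => ?_, fun hd E hE hKE hEd => ?_⟩
  · rw [qOne_iff]
    have hρ' := (isCont_iff ρ).1 hρ
    refine hmain p hp hp2 K hK W (old ρ) hρ' fun U U' hst => ?_
    obtain ⟨f, h1, h2, h3, h4, e, he, hpe, hlt⟩ :=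
      form_dim hp hK (old ρ) hρ' hst (hdim U U' ((isStep_iff ρ U U').2 hst))
    exact ⟨f, h1, h2, (muZero_iff hH hp _ h3).1 (hq _ h3 h4 e he hpe hlt)⟩
  · obtain ⟨h1, h2, h3, h4⟩ := Pool.Agent.W2helper15.IW.SHA_ok p hp K E hK hE hKE
    have hfin : Finite (K.fixingSubgroup ⧸ Pool.Agent.W2helper81.IW.GalOf K E) := h3
    have hfin2 : Finite (K.fixingSubgroup ⧸ Pool.Agent.W2helper81.IW.GalOf K E → ZMod p) := inferInstance
    have hpos : 0 < finrank ℚ K := finrank_pos
    have hd' : finrank (ZMod p) (K.fixingSubgroup ⧸ Pool.Agent.W2helper81.IW.GalOf K E → ZMod p) ≤ d := by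
      rw [← h2, mul_comm] at hEd
      exact Nat.le_of_mul_le_mul_right hEd hpos
    have hmf : Module.Finite (ZMod p)
        (K.fixingSubgroup ⧸ Pool.Agent.W2helper81.IW.GalOf K E → ZMod p) := Module.Finite.of_finite
    obtain ⟨C, hC⟩ := (qOne_iff (K := K) (Pool.Agent.W2helper81.IW.perm p K E)).1
      (hd _ (Pool.Agent.W2helper81.IW.perm p K E)
        ((isCont_iff (K := K) (Pool.Agent.W2helper81.IW.perm p K E)).2 h1)
        fun U U' _ => (Submodule.finrank_le U').trans (hd'.trans (Nat.le_add_left _ _)))
    rw [muZero_iff hH hp E hE]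
    refine ⟨C, fun m R hL => ?_⟩
    have hRf : FiniteDimensional ℚ R := Pool.Agent.W5h77.MB.layer_fd hp hL
    have hRG : IsGalois ℚ R := Pool.Agent.W5h77.MB.layer_galois hp hL
    have hER : FiniteDimensional ℚ ↥(E ⊔ R) := inferInstance
    exact (hH p hp _ hER C).2 (h4 R hRf hRG C (hC m R hL))

end Pool.Agent.Results.MP_519cc8_nt.DimensionAgainstDegree
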