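import Pool.Agent.W2helper81.IT.Tr
import Pool.Agent.W2helper17.IW.HOM
import Pool.Agent.W2helper92.IW.FD
import Pool.Agent.W2helper71.IW.RAM
import Pool.Agent.W2helper85.IW.STEP

/-!
# `μ = 0` for `T` from the fields of linear forms on the constituents of `Hom(T / πT, μ_p)`

## The translation of the question

Let `p` be odd and `T` as in the question, with residual module `T / πT`, and let `K` be the field called `L` there.
By Nakayama's lemma `H²_Iw(O_{K,S}, T)` is `Λ`-torsion with `μ`-invariant `0` if and only if
`H²_Iw(O_{K,S}, T) / π` is finite. As `G_{K,S}` has `p`-cohomological dimension `2`, this is the inverse limit of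
the `H²(O_{K_n,S}, T / πT)`, with surjective transition maps. Put `W = Hom(T / πT, μ_p)`. By Poitou and Tate the
kernel of `H²(O_{K_n,S}, T / πT) → ⊕_{v ∈ S} H²(K_{n,v}, T / πT)` is dual to the group of the classes in
`H¹(K_n, W)` which are unramified outside `S` and trivial at `S`, and the local groups are dual to the
`H⁰(K_{n,v}, W)`. As the places of `S` have a bounded number of places above them in the `K_n`, the question for `T` is:
is the group of the everywhere unramified classes in `H¹(K_n, W)` bounded? As there are at most `|W|` coboundaries,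
this is `QOne ρ` for the action `ρ` of `G_K` on `W`. This translation is classical, and it is not formalised here.

## The theorem

Let `ρ` be a continuous action of `G_K = Gal(Qb/K)` on a finite `𝔽_p`-vector space `W`. For stable subspaces
`U < U'` with `U' / U` simple and a linear form `f` on `W` with `f = 0` on `U` let `K(f)` be the field fixed by
`{g ∈ G_K | f (g x) = f x for all x ∈ U'}`. This is the stabiliser of a vector of the dual of `U' / U`. The
field `K(f)` is in general not normal over `K`. It is often much smaller than the field cut out by `U' / U`; its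
degree over `K` can always be chosen to be prime to `p` and less than `|U' / U|`.

Assume that for each such pair `U < U'` there is `f`, not zero on `U'`, such that the classical invariant `μ` of the
cyclotomic `ℤ_p`-extension of `K(f)` vanishes. This holds, for instance, if `K(f)` has only one prime above `p` and a class number
prime to `p`. Then the number of everywhere unramified cocycles `G_{K_n} → W` is bounded, where the `K_n` are the
layers of the cyclotomic `ℤ_p`-extension of `K`.
-/

set_option autoImplicit false

namespace Pool.Agent.Results.MP_519cc8_nt.FieldsOfLinearForms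

open IntermediateField Module Pool.Agent.Q60.MU Pool.Agent.W2helper81.IT
open Pool.Agent.W5h77.MB (OnePrime layer_fd layer_galois one_prime)

/-- **Everywhere unramified cocycles are bounded in the cyclotomic `ℤ_p`-extension, if each constituent has a
linear form `f` with `μ = 0` for the field `K(f)`.** -/
theorem result (p : ℕ) (hp : p.Prime) (hp2 : p ≠ 2) (K : IntermediateField ℚ Qb) (hK : FiniteDimensional ℚ K)
    (W : Type) [AddCommGroup W] [Module (ZMod p) W] [Finite W]
    (ρ : Representation (ZMod p) (G K) W) (hρ : IsCont ρ)
    (hf : ∀ U U' : Submodule (ZMod p) W, IsStep ρ U U' →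
      ∃ f : W →ₗ[ZMod p] ZMod p, (∀ x ∈ U, f x = 0) ∧ (∃ x ∈ U', f x ≠ 0) ∧
        (MuZero p (formField ρ U' f) ∨
          (OnePrime p (formField ρ U' f) ∧ AtMost (Hom p (formField ρ U' f)) 1))) :
    QOne ρ := by
  have hpf : Fact p.Prime := ⟨hp⟩
  have hH : Pool.Agent.W2helper81.IW.P_HOM := Pool.Agent.W2helper17.IW.HOM_ok
  have hmain := Pool.Agent.W2helper81.IW.main_ok hH Pool.Agent.W2helper92.IW.FD_ok
    Pool.Agent.W2helper71.IW.RAM_ok Pool.Agent.W2helper81.IW.STEP_ok
  rw [qOne_iff]
  refine hmain p hp hp2 K hK W (old ρ) ((isCont_iff ρ).1 hρ) fun U U' hst => ?_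
  obtain ⟨f, h1, h2, h3⟩ := hf U U' hst
  refine ⟨f, h1, h2, ?_⟩
  obtain ⟨N₀, hN₀, hN₀t⟩ := (isCont_iff ρ).1 hρ
  obtain ⟨N, hN, hNG, hKN, hNN⟩ := Pool.Agent.W2helper81.IW.exists_galois K N₀ hK hN₀
  have hMf : FiniteDimensional ℚ (Pool.Agent.W2helper81.IW.formField (old ρ) U' f) :=
    Pool.Agent.W2helper81.IW.fd_of_le' hN (Pool.Agent.W2helper81.IW.formField_le hKN
      (Pool.Agent.W2helper81.IW.trivialOver_mono hNN hN₀t) U' f)
  rw [formField_eq] at h3
  rcases h3 with h3 | ⟨h3, h4⟩
  · exact (muZero_iff hH hp _ hMf).1 h3
  · rw [atMost_hom, ← hH p hp _ hMf] at h4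
    refine ⟨1, fun m R hL => ?_⟩
    have hRf : FiniteDimensional ℚ R := layer_fd hp hL
    have hRG : IsGalois ℚ R := layer_galois hp hL
    exact one_prime _ h3 h4 hL

end Pool.Agent.Results.MP_519cc8_nt.FieldsOfLinearForms
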